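import Mathlib

set_option autoImplicit false

/-!
# Symmetry implies transitivity for congruence modulo an ultrafilter

For `w ≠ 0` put `D = {n : nℤ ∈ w}`.  If `D ∈ w` then `≡_w` is transitive.  If `D ∉ w` then `≡_w` is
not symmetric: choose for every `c ≠ 0` multiples `c g₁(c)`, `c g₂(c)` such that the numbers
`c g_i(c) - b_j` (`j ∈ J(c)`) have no common divisors outside `D` for different `c`, `i`; here `b_j`
is a sequence of integers divisible by more and more numbers.
-/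

namespace Pool.Agent.Results.MP_6ac782_lc.SymmetricTransitive

open Filter

/-- The sum of two ultrafilters on `ℤ`: `A ∈ u ⊕ v` iff `{x : {y : x + y ∈ A} ∈ v} ∈ u`. -/
def uadd (u v : Ultrafilter ℤ) : Ultrafilter ℤ :=
  Ultrafilter.bind u (fun x => Ultrafilter.map (fun y => x + y) v)

/-- `-u = {-A : A ∈ u}`, the image of `u` under `x ↦ -x`. -/
def uneg (u : Ultrafilter ℤ) : Ultrafilter ℤ := Ultrafilter.map (fun x => -x) u

/-- `u ⊖ v = u ⊕ (-v)`. -/
def usub (u v : Ultrafilter ℤ) : Ultrafilter ℤ := uadd u (uneg v)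

/-- Divisibility-upward closed sets of integers. -/
def UpClosed (A : Set ℤ) : Prop := ∀ a b : ℤ, a ∈ A → a ∣ b → b ∈ A

/-- `u ∣~ v`: every divisibility-upward closed member of `u` is in `v`. -/
def TDvd (u v : Ultrafilter ℤ) : Prop := ∀ A : Set ℤ, UpClosed A → A ∈ u → A ∈ v

/-- `u ≡_w v` iff `w ∣~ (u ⊖ v)`. -/
def Cong (w u v : Ultrafilter ℤ) : Prop := TDvd w (usub u v)

theorem mem_uadd (u v : Ultrafilter ℤ) (A : Set ℤ) :
    A ∈ uadd u v ↔ {x : ℤ | {y : ℤ | x + y ∈ A} ∈ v} ∈ u :=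
  Iff.rfl

theorem mem_usub (u v : Ultrafilter ℤ) (A : Set ℤ) :
    A ∈ usub u v ↔ {x : ℤ | {y : ℤ | x - y ∈ A} ∈ v} ∈ u :=
  Iff.rfl

/-! ### The arithmetic -/

theorem avoid_class {p k : ℕ} (hp : p.Prime) (c : ℤ) (hc : ¬ ((p : ℤ) ^ k) ∣ c) (b : ℕ → ℤ)
    (hb : ∀ j, p ≤ j + 3 → ((p : ℤ) ^ k) ∣ b j) :
    ∃ r : ℕ, ∀ g : ℤ, (p : ℤ) ∣ g - r → ∀ j, ¬ ((p : ℤ) ^ k) ∣ c * g - b j := by
  by_contra hcon
  push Not at hcon
  choose g hg j hj using hcon
  have key : ∀ x : ℤ, ((p : ℤ) ^ k) ∣ c * x → (p : ℤ) ∣ x := by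
    intro x hx
    by_contra hpx
    apply hc
    have hcop : IsCoprime ((p : ℤ) ^ k) x := by
      apply IsCoprime.pow_left
      exact (Nat.prime_iff_prime_int.1 hp).coprime_iff_not_dvd.2 hpx
    exact hcop.dvd_of_dvd_mul_right hx
  have hp2 := hp.two_le
  have hlt : ∀ r ∈ Finset.Ico 1 p, j r ∈ Finset.range (p - 3) := by
    intro r hr
    rw [Finset.mem_Ico] at hr
    rw [Finset.mem_range]
    by_contra hge
    have h1 : p ≤ j r + 3 := by omega
    have h2 := hb _ h1
    have h3 : ((p : ℤ) ^ k) ∣ c * g r := by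
      have := dvd_add (hj r) h2
      simpa using this
    have h4 := key _ h3
    have h5 : (p : ℤ) ∣ (r : ℤ) := by
      have := dvd_sub h4 (hg r)
      simpa using this
    have h6 : p ∣ r := by exact_mod_cast h5
    have := Nat.le_of_dvd (by omega) h6
    omega
  obtain ⟨r, hr, s, hs, hrs, hjrs⟩ := Finset.exists_ne_map_eq_of_card_lt_of_maps_to
    (s := Finset.Ico 1 p) (t := Finset.range (p - 3)) (by simp; omega) hlt
  have h1 : ((p : ℤ) ^ k) ∣ c * (g r - g s) := by
    have := dvd_sub (hj r) (hj s)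
    rw [hjrs] at this
    have h2 : c * g r - b (j s) - (c * g s - b (j s)) = c * (g r - g s) := by ring
    rwa [h2] at this
  have h2 := key _ h1
  have h3 : (p : ℤ) ∣ (r : ℤ) - (s : ℤ) := by
    have := dvd_add (dvd_sub h2 (hg r)) (hg s)
    have h4 : g r - g s - (g r - (r : ℤ)) + (g s - (s : ℤ)) = (r : ℤ) - (s : ℤ) := by ring
    rwa [h4] at this
  rw [Finset.mem_Ico] at hr hs
  have h4 : (r : ℤ) - s = 0 := by
    apply Int.eq_zero_of_abs_lt_dvd h3
    rw [abs_lt]
    constructor <;> omega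
  apply hrs
  omega

/-- `q p` is `0` or a power `p ^ k` (for `p` prime). -/
def IsPP (q : ℕ → ℕ) : Prop := ∀ p : ℕ, p.Prime → q p = 0 ∨ ∃ k : ℕ, q p = p ^ k

/-- The set `J(c)`. -/
def J (q : ℕ → ℕ) (b : ℕ → ℤ) (c : ℤ) : Set ℕ :=
  {j | j ≤ c.natAbs ∧ ∀ p : ℕ, p.Prime → ¬ ((q p : ℤ) ∣ c ∧ (q p : ℤ) ∣ b j)}

theorem exists_g {q : ℕ → ℕ} (hq : IsPP q) (b : ℕ → ℤ)
    (hb : ∀ p : ℕ, p.Prime → q p ≠ 0 → ∀ j, p ≤ j + 3 → (q p : ℤ) ∣ b j)
    (c : ℤ) (hc : c ≠ 0) (L : ℕ) :
    ∃ g : ℤ, ∀ j ∈ J q b c, c * g - b j ≠ 0 ∧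
      ∀ p : ℕ, p.Prime → p < L → ¬ (q p : ℤ) ∣ c * g - b j := by
  classical
  -- residues
  have hres : ∀ p : ℕ, ∃ r : ℕ, p.Prime → q p ≠ 0 → ∀ g : ℤ, (p : ℤ) ∣ g - r →
      ∀ j ∈ J q b c, ¬ (q p : ℤ) ∣ c * g - b j := by
    intro p
    by_cases hp : p.Prime
    · by_cases hq0 : q p = 0
      · exact ⟨0, fun _ h => absurd hq0 h⟩
      · obtain ⟨k, hk⟩ := (hq p hp).resolve_left hq0
        by_cases hqc : (q p : ℤ) ∣ c
        · refine ⟨0, fun _ _ g _ j hj hdvd => ?_⟩
          apply hj.2 p hp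
          refine ⟨hqc, ?_⟩
          have h1 : (q p : ℤ) ∣ c * g := Dvd.dvd.mul_right hqc g
          have := dvd_sub h1 hdvd
          simpa using this
        · have hqk : (q p : ℤ) = (p : ℤ) ^ k := by rw [hk]; push_cast; rfl
          rw [hqk] at hqc
          obtain ⟨r, hr⟩ := avoid_class hp c hqc b (by
            intro j hj
            rw [← hqk]
            exact hb p hp hq0 j hj)
          refine ⟨r, fun _ _ g hg j _ => ?_⟩
          rw [hqk]
          exact hr g hg j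
    · exact ⟨0, fun h => absurd h hp⟩
  choose r hr using hres
  let S : Finset ℕ := (Finset.range L).filter Nat.Prime
  have hS0 : ∀ i ∈ S, i ≠ 0 := by
    intro i hi
    rw [Finset.mem_filter] at hi
    exact hi.2.ne_zero
  have hpair : Set.Pairwise (↑S : Set ℕ) (Function.onFun Nat.Coprime (fun i => i)) := by
    intro i hi j hj hij
    rw [Finset.mem_coe, Finset.mem_filter] at hi hj
    exact (Nat.coprime_primes hi.2 hj.2).2 hij
  obtain ⟨k, hk⟩ := Nat.chineseRemainderOfFinset r (fun i => i) S hS0 hpair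
  let M : ℤ := ∏ p ∈ S, (p : ℤ)
  have hM0 : M ≠ 0 := by
    apply Finset.prod_ne_zero_iff.2
    intro p hp
    exact_mod_cast hS0 p hp
  -- avoid finitely many values of t
  have hfin : ∀ j : ℕ, Set.Finite {t : ℤ | c * ((k : ℤ) + M * t) - b j = 0} := by
    intro j
    apply Set.Subsingleton.finite
    intro t ht s hs
    simp only [Set.mem_ofPred_eq] at ht hs
    have h1 : c * M * (t - s) = 0 := by linear_combination ht - hs
    have h2 : t - s = 0 := by
      rcases mul_eq_zero.1 h1 with h | h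
      · rcases mul_eq_zero.1 h with h | h
        · exact absurd h hc
        · exact absurd h hM0
      · exact h
    omega
  have hfin2 : Set.Finite (⋃ j ∈ Finset.range (c.natAbs + 1),
      {t : ℤ | c * ((k : ℤ) + M * t) - b j = 0}) :=
    Set.Finite.biUnion (Finset.finite_toSet _) (fun j _ => hfin j)
  obtain ⟨t, ht⟩ := hfin2.exists_notMem
  refine ⟨(k : ℤ) + M * t, ?_⟩
  intro j hj
  have hne : c * ((k : ℤ) + M * t) - b j ≠ 0 := by
    intro h0
    apply ht
    simp only [Set.mem_iUnion]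
    exact ⟨j, Finset.mem_range.2 (Nat.lt_succ_of_le hj.1), h0⟩
  refine ⟨hne, ?_⟩
  intro p hp hpL
  by_cases hq0 : q p = 0
  · rw [hq0]
    simpa using hne
  · apply hr p hp hq0 _ _ j hj
    have hpS : p ∈ S := Finset.mem_filter.2 ⟨Finset.mem_range.2 hpL, hp⟩
    have h1 := hk p hpS
    have h2 : (p : ℤ) ∣ (k : ℤ) - (r p : ℤ) := by
      have := (Nat.modEq_iff_dvd.1 h1.symm)
      exact this
    have h3 : (p : ℤ) ∣ M := Finset.dvd_prod_of_mem (fun p : ℕ => (p : ℤ)) hpS
    have h4 : (k : ℤ) + M * t - (r p : ℤ) = ((k : ℤ) - r p) + M * t := by ring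
    rw [h4]
    exact dvd_add h2 (Dvd.dvd.mul_right h3 t)

/-- The recursion: two families of multiples such that numbers coming from different events have no
common multiple-of-`q p` divisors. -/
theorem exists_families {q : ℕ → ℕ} (hq : IsPP q) (b : ℕ → ℤ)
    (hb : ∀ p : ℕ, p.Prime → q p ≠ 0 → ∀ j, p ≤ j + 3 → (q p : ℤ) ∣ b j)
    (hq1 : ∀ p : ℕ, p.Prime → q p ≠ 1) :
    ∃ G : ℤ → Bool → ℤ, ∀ c c' : ℤ, c ≠ 0 → c' ≠ 0 → ∀ j ∈ J q b c, ∀ j' ∈ J q b c',
      ∀ p : ℕ, p.Prime →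
        ¬ ((q p : ℤ) ∣ c * G c true - b j ∧ (q p : ℤ) ∣ c' * G c' false - b j') := by
  classical
  have hex : ∀ (c : ℤ) (L : ℕ), ∃ g : ℤ, c ≠ 0 → ∀ j ∈ J q b c, c * g - b j ≠ 0 ∧
      ∀ p : ℕ, p.Prime → p < L → ¬ (q p : ℤ) ∣ c * g - b j := by
    intro c L
    by_cases hc : c = 0
    · exact ⟨0, fun h => absurd hc h⟩
    · obtain ⟨g, hg⟩ := exists_g hq b hb c hc L
      exact ⟨g, fun _ => hg⟩
  choose gf hgf using hex
  obtain ⟨e⟩ : Nonempty (ℕ ≃ ℤ × Bool) := nonempty_equiv_of_countable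
  let stp : ℕ → ℕ → ℕ := fun n L =>
    L + 1 + ∑ j ∈ Finset.range ((e n).1.natAbs + 1), ((e n).1 * gf (e n).1 L - b j).natAbs
  let Ls : ℕ → ℕ := fun n => Nat.rec 0 (fun n L => stp n L) n
  have hLs : ∀ n, Ls (n + 1) = stp n (Ls n) := fun n => rfl
  have hmono : Monotone Ls := by
    apply monotone_nat_of_le_succ
    intro n
    rw [hLs]
    simp only [stp]
    omega
  -- the number chosen at stage n
  let N : ℕ → ℕ → ℤ := fun n j => (e n).1 * gf (e n).1 (Ls n) - b j
  have hlt : ∀ n j, j ∈ J q b (e n).1 → (N n j).natAbs < Ls (n + 1) := by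
    intro n j hj
    rw [hLs]
    have h1 : (N n j).natAbs ≤
        ∑ j ∈ Finset.range ((e n).1.natAbs + 1), ((e n).1 * gf (e n).1 (Ls n) - b j).natAbs :=
      Finset.single_le_sum (f := fun j => ((e n).1 * gf (e n).1 (Ls n) - b j).natAbs)
        (fun _ _ => Nat.zero_le _) (Finset.mem_range.2 (Nat.lt_succ_of_le hj.1))
    simp only [stp]
    omega
  -- for m < n no q p divides both
  have hsep : ∀ m n, m < n → (e m).1 ≠ 0 → (e n).1 ≠ 0 → ∀ j ∈ J q b (e m).1,
      ∀ j' ∈ J q b (e n).1, ∀ p : ℕ, p.Prime →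
        ¬ ((q p : ℤ) ∣ N m j ∧ (q p : ℤ) ∣ N n j') := by
    intro m n hmn hm0 hn0 j hj j' hj' p hp hdv
    have hNm0 : N m j ≠ 0 := (hgf (e m).1 (Ls m) hm0 j hj).1
    have hq0 : q p ≠ 0 := by
      intro h0
      have := hdv.1
      rw [h0] at this
      apply hNm0
      simpa using this
    obtain ⟨k, hk⟩ := (hq p hp).resolve_left hq0
    have hk0 : k ≠ 0 := by
      intro h0
      rw [h0, pow_zero] at hk
      exact hq1 p hp hk
    have hpq : (p : ℤ) ∣ (q p : ℤ) := by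
      rw [hk]
      push_cast
      exact dvd_pow_self _ hk0
    have hpN : (p : ℤ) ∣ N m j := hpq.trans hdv.1
    have h1 : p ∣ (N m j).natAbs := Int.natCast_dvd.1 hpN
    have h2 : p ≤ (N m j).natAbs := Nat.le_of_dvd (Int.natAbs_pos.2 hNm0) h1
    have h3 := hlt m j hj
    have h4 : Ls (m + 1) ≤ Ls n := hmono hmn
    exact (hgf (e n).1 (Ls n) hn0 j' hj').2 p hp (by omega) hdv.2
  refine ⟨fun c i => gf c (Ls (e.symm (c, i))), ?_⟩
  intro c c' hc hc' j hj j' hj' p hp hdv
  have e1 : (e (e.symm (c, true))) = (c, true) := e.apply_symm_apply _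
  have e2 : (e (e.symm (c', false))) = (c', false) := e.apply_symm_apply _
  have hne : e.symm (c, true) ≠ e.symm (c', false) := by
    intro h
    have := e.symm.injective h
    simp at this
  have hN1 : N (e.symm (c, true)) j = c * gf c (Ls (e.symm (c, true))) - b j := by
    simp only [N, e1]
  have hN2 : N (e.symm (c', false)) j' = c' * gf c' (Ls (e.symm (c', false))) - b j' := by
    simp only [N, e2]
  rcases lt_or_gt_of_ne hne with h | h
  · apply hsep _ _ h (by rw [e1]; exact hc) (by rw [e2]; exact hc') j (by rw [e1]; exact hj) j'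
      (by rw [e2]; exact hj') p hp
    rw [hN1, hN2]
    exact hdv
  · apply hsep _ _ h (by rw [e2]; exact hc') (by rw [e1]; exact hc) j' (by rw [e2]; exact hj') j
      (by rw [e1]; exact hj) p hp
    rw [hN1, hN2]
    exact ⟨hdv.2, hdv.1⟩

/-! ### The ultrafilter part -/

/-- `D = {n : nℤ ∈ w}`. -/
def D (w : Ultrafilter ℤ) : Set ℤ := {n : ℤ | {m : ℤ | n ∣ m} ∈ w}

theorem D_dvd {w : Ultrafilter ℤ} {m n : ℤ} (h : m ∣ n) (hn : n ∈ D w) : m ∈ D w :=
  Filter.mem_of_superset hn (fun _ hx => h.trans hx)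

theorem D_mul {w : Ultrafilter ℤ} {m n : ℤ} (h : IsCoprime m n) (hm : m ∈ D w) (hn : n ∈ D w) :
    m * n ∈ D w := by
  refine Filter.mem_of_superset (Filter.inter_mem hm hn) ?_
  intro x hx
  exact h.mul_dvd hx.1 hx.2

theorem D_one (w : Ultrafilter ℤ) : (1 : ℤ) ∈ D w :=
  Filter.mem_of_superset Filter.univ_mem (fun x _ => one_dvd x)

theorem transitive_of_mem {w : Ultrafilter ℤ} (h : D w ∈ w) {u v z : Ultrafilter ℤ}
    (huv : Cong w u v) (hvz : Cong w v z) : Cong w u z := by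
  intro A hA hAw
  obtain ⟨c, hcA, hcD⟩ := Ultrafilter.nonempty_of_mem (Filter.inter_mem hAw h)
  have hup : UpClosed {m : ℤ | c ∣ m} := fun a b ha hab => Dvd.dvd.trans ha hab
  have h1 := huv _ hup hcD
  have h2 := hvz _ hup hcD
  rw [mem_usub] at h1 h2 ⊢
  refine Filter.mem_of_superset h1 ?_
  intro x hx
  obtain ⟨y, hy1, hy2⟩ := Ultrafilter.nonempty_of_mem (Filter.inter_mem hx h2)
  refine Filter.mem_of_superset hy2 ?_
  intro t ht
  apply hA c _ hcA
  have h3 : c ∣ x - y := hy1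
  have h4 : c ∣ y - t := ht
  have := dvd_add h3 h4
  simpa using this

/-- If every prime power dividing `z ≠ 0` lies in `D` then `z ∈ D`. -/
theorem mem_D_of_primes {w : Ultrafilter ℤ} (z : ℕ) (hz : z ≠ 0)
    (h : ∀ p k : ℕ, p.Prime → p ^ k ∣ z → ((p : ℤ) ^ k) ∈ D w) : (z : ℤ) ∈ D w := by
  induction z using Nat.recOnPosPrimePosCoprime with
  | prime_pow p n hp hn =>
    have := h p n hp dvd_rfl
    push_cast
    exact this
  | zero => exact absurd rfl hz
  | one => exact_mod_cast D_one w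
  | coprime a b ha hb hab iha ihb =>
    push_cast
    apply D_mul
    · exact Nat.isCoprime_iff_coprime.2 hab
    · exact iha (by omega) (fun p k hp hk => h p k hp (Dvd.dvd.mul_right hk b))
    · exact ihb (by omega) (fun p k hp hk => h p k hp (Dvd.dvd.mul_left hk a))

theorem not_symmetric_of_not_mem {w : Ultrafilter ℤ} (hw : w ≠ pure 0) (hD : D w ∉ w) :
    ∃ u v : Ultrafilter ℤ, Cong w u v ∧ ¬ Cong w v u := by
  classical
  -- w is not principal
  have hnp : ∀ n : ℤ, {m : ℤ | m ≠ n} ∈ w := by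
    intro n
    have h1 : {n} ∉ w := by
      intro hn
      by_cases h0 : n = 0
      · subst h0
        apply hw
        apply Ultrafilter.ext
        intro A
        rw [Ultrafilter.mem_pure]
        constructor
        · intro hA
          obtain ⟨x, hx1, hx2⟩ := Ultrafilter.nonempty_of_mem (Filter.inter_mem hn hA)
          rw [Set.mem_singleton_iff] at hx1
          rwa [hx1] at hx2
        · intro h0A
          exact Filter.mem_of_superset hn (Set.singleton_subset_iff.2 h0A)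
      · apply hD
        refine Filter.mem_of_superset hn ?_
        intro m hm
        rw [Set.mem_singleton_iff] at hm
        subst hm
        exact Filter.mem_of_superset hn (fun x hx => by
          rw [Set.mem_singleton_iff] at hx
          subst hx
          exact dvd_rfl)
    exact Ultrafilter.compl_mem_iff_notMem.2 h1
  -- the prime powers q p
  let q : ℕ → ℕ := fun p => if h : ∃ k : ℕ, ((p : ℤ) ^ k) ∉ D w then p ^ (Nat.find h) else 0
  have hqPP : IsPP q := by
    intro p _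
    by_cases h : ∃ k : ℕ, ((p : ℤ) ^ k) ∉ D w
    · right
      exact ⟨Nat.find h, by simp only [q, dif_pos h]⟩
    · left
      simp only [q, dif_neg h]
  have hqD : ∀ p : ℕ, p.Prime → (q p : ℤ) ∉ D w := by
    intro p _
    by_cases h : ∃ k : ℕ, ((p : ℤ) ^ k) ∉ D w
    · have h1 : q p = p ^ (Nat.find h) := by simp only [q, dif_pos h]
      rw [h1]
      push_cast
      exact Nat.find_spec h
    · have h1 : q p = 0 := by simp only [q, dif_neg h]
      rw [h1]
      intro h2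
      have h3 : {m : ℤ | (0 : ℤ) ∣ m} ∈ w := by exact_mod_cast h2
      have h4 := Filter.inter_mem h3 (hnp 0)
      obtain ⟨x, hx1, hx2⟩ := Ultrafilter.nonempty_of_mem h4
      exact hx2 (by simpa using hx1)
  have hq1 : ∀ p : ℕ, p.Prime → q p ≠ 1 := by
    intro p hp h1
    have := hqD p hp
    rw [h1] at this
    exact this (by exact_mod_cast D_one w)
  -- an integer z ≠ 0 outside D is divisible by some q p
  have hzq : ∀ z : ℤ, z ≠ 0 → z ∉ D w → ∃ p : ℕ, p.Prime ∧ (q p : ℤ) ∣ z := by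
    intro z hz hzD
    by_contra hcon
    push Not at hcon
    apply hzD
    have h1 : ((z.natAbs : ℕ) : ℤ) ∈ D w := by
      apply mem_D_of_primes _ (Int.natAbs_ne_zero.2 hz)
      intro p k hp hk
      by_contra hnk
      have hexk : ∃ k : ℕ, ((p : ℤ) ^ k) ∉ D w := ⟨k, hnk⟩
      apply hcon p hp
      have h2 : q p = p ^ (Nat.find hexk) := by simp only [q, dif_pos hexk]
      rw [h2, Int.natCast_dvd]
      exact (pow_dvd_pow p (Nat.find_min' hexk hnk)).trans hk
    exact D_dvd (by rw [Int.dvd_natAbs]) h1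
  -- the sequence b
  let b : ℕ → ℤ := fun j => ((j.factorial : ℕ) : ℤ) *
    ∏ p ∈ (Finset.range (j + 4)).filter (fun p => q p ≠ 0), (q p : ℤ)
  have hb0 : ∀ j, b j ≠ 0 := by
    intro j
    apply mul_ne_zero
    · exact_mod_cast Nat.factorial_ne_zero j
    · apply Finset.prod_ne_zero_iff.2
      intro p hp
      rw [Finset.mem_filter] at hp
      exact_mod_cast hp.2
  have hb : ∀ p : ℕ, p.Prime → q p ≠ 0 → ∀ j, p ≤ j + 3 → (q p : ℤ) ∣ b j := by
    intro p _ hq0 j hj
    apply Dvd.dvd.mul_left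
    exact Finset.dvd_prod_of_mem (fun p : ℕ => (q p : ℤ))
      (Finset.mem_filter.2 ⟨Finset.mem_range.2 (by omega), hq0⟩)
  have hbdvd : ∀ c : ℤ, c ≠ 0 → ∀ j, c.natAbs ≤ j → c ∣ b j := by
    intro c hc j hj
    apply Dvd.dvd.mul_right
    rw [Int.dvd_natCast]
    exact Nat.dvd_factorial (Int.natAbs_pos.2 hc) hj
  obtain ⟨G, hG⟩ := exists_families hqPP b hb hq1
  -- the sets Z_i
  let Z : Bool → Set ℤ := fun i => {z | z ≠ 0 ∧ z ∉ D w ∧ ∃ c : ℤ, c ≠ 0 ∧ ∃ j ∈ J q b c,
    z ∣ c * G c i - b j}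
  have hZ : ∃ i, Z i ∉ w := by
    by_contra hcon
    push Not at hcon
    obtain ⟨z, hz1, hz2⟩ := Ultrafilter.nonempty_of_mem (Filter.inter_mem (hcon true) (hcon false))
    obtain ⟨hz0, hzD, c, hc, j, hj, hd⟩ := hz1
    obtain ⟨-, -, c', hc', j', hj', hd'⟩ := hz2
    obtain ⟨p, hp, hqz⟩ := hzq z hz0 hzD
    exact hG c c' hc hc' j hj j' hj' p hp ⟨hqz.trans hd, hqz.trans hd'⟩
  obtain ⟨i, hi⟩ := hZ
  refine ⟨Ultrafilter.map (fun c => c * G c i) w, Ultrafilter.map b (hyperfilter ℕ), ?_, ?_⟩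
  · -- u ≡_w v
    intro A hA hAw
    rw [mem_usub]
    show {c : ℤ | {j : ℕ | c * G c i - b j ∈ A} ∈ hyperfilter ℕ} ∈ w
    refine Filter.mem_of_superset (Filter.inter_mem hAw (hnp 0)) ?_
    intro c hc
    have hc0 : c ≠ 0 := hc.2
    have hcof : {j : ℕ | c.natAbs ≤ j} ∈ (hyperfilter ℕ : Ultrafilter ℕ) := by
      apply Filter.mem_hyperfilter_of_finite_compl
      apply (Set.finite_lt_nat c.natAbs).subset
      intro j hj
      simpa using hj
    refine Filter.mem_of_superset hcof ?_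
    intro j hj
    apply hA c _ hc.1
    exact dvd_sub (dvd_mul_right c _) (hbdvd c hc0 j hj)
  · -- not v ≡_w u
    intro hcon
    let W0 : Set ℤ := {z | z ≠ 0 ∧ z ∉ D w ∧ z ∉ Z i}
    have hW0 : W0 ∈ w := by
      have h1 : (D w)ᶜ ∈ w := Ultrafilter.compl_mem_iff_notMem.2 hD
      have h2 : (Z i)ᶜ ∈ w := Ultrafilter.compl_mem_iff_notMem.2 hi
      refine Filter.mem_of_superset (Filter.inter_mem (hnp 0) (Filter.inter_mem h1 h2)) ?_
      intro z hz
      exact ⟨hz.1, hz.2.1, hz.2.2⟩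
    let A : Set ℤ := {m | ∃ z ∈ W0, z ∣ m}
    have hAup : UpClosed A := by
      intro a b' ha hab
      obtain ⟨z, hz, hza⟩ := ha
      exact ⟨z, hz, hza.trans hab⟩
    have hAw : A ∈ w := Filter.mem_of_superset hW0 (fun z hz => ⟨z, hz, dvd_rfl⟩)
    have h1 := hcon A hAup hAw
    rw [mem_usub] at h1
    have h2 : {j : ℕ | {c : ℤ | b j - c * G c i ∈ A} ∈ w} ∈ (hyperfilter ℕ : Ultrafilter ℕ) := h1
    obtain ⟨j, hj⟩ := Ultrafilter.nonempty_of_mem h2
    have hj' : {c : ℤ | b j - c * G c i ∈ A} ∈ w := hj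
    -- w-most c has j ∈ J c
    have hJ : {c : ℤ | j ∈ J q b c} ∈ w := by
      -- size
      have hs : {c : ℤ | j ≤ c.natAbs} ∈ w := by
        have h3 : ⋂ n ∈ Finset.Ioo (-(j : ℤ)) j, {m : ℤ | m ≠ n} ∈ w := by
          rw [← Ultrafilter.mem_coe]
          exact (Filter.biInter_finset_mem _).2 (fun n _ => hnp n)
        refine Filter.mem_of_superset h3 ?_
        intro c hc
        by_contra hlt
        simp only [Set.mem_ofPred_eq, not_le] at hlt
        simp only [Set.mem_iInter, Finset.mem_Ioo] at hc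
        exact hc c (by omega) rfl
      -- the finitely many primes p with q p ∣ b j
      have hfin : Set.Finite {p : ℕ | p.Prime ∧ (q p : ℤ) ∣ b j} := by
        apply (Set.finite_le_nat (b j).natAbs).subset
        intro p hp
        obtain ⟨hpp, hpd⟩ := hp
        have hq0 : q p ≠ 0 := by
          intro h0
          rw [h0] at hpd
          exact hb0 j (by simpa using hpd)
        obtain ⟨k, hk⟩ := (hqPP p hpp).resolve_left hq0
        have hk0 : k ≠ 0 := by
          intro h0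
          rw [h0, pow_zero] at hk
          exact hq1 p hpp hk
        have hpq : (p : ℤ) ∣ (q p : ℤ) := by
          rw [hk]
          push_cast
          exact dvd_pow_self _ hk0
        exact Nat.le_of_dvd (Int.natAbs_pos.2 (hb0 j)) (Int.natCast_dvd.1 (hpq.trans hpd))
      have h3 : ⋂ p ∈ hfin.toFinset, {c : ℤ | ¬ (q p : ℤ) ∣ c} ∈ w := by
        rw [← Ultrafilter.mem_coe]
        refine (Filter.biInter_finset_mem _).2 (fun p hp => ?_)
        rw [Set.Finite.mem_toFinset] at hp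
        exact Ultrafilter.compl_mem_iff_notMem.2 (hqD p hp.1)
      refine Filter.mem_of_superset (Filter.inter_mem hs h3) ?_
      intro c hc
      refine ⟨hc.1, ?_⟩
      intro p hp hcon2
      have h4 := hc.2
      simp only [Set.mem_iInter, Set.Finite.mem_toFinset] at h4
      exact h4 p ⟨hp, hcon2.2⟩ hcon2.1
    obtain ⟨c, hc1, hc2, hc3⟩ := Ultrafilter.nonempty_of_mem
      (Filter.inter_mem hj' (Filter.inter_mem hJ (hnp 0)))
    obtain ⟨z, hz, hzd⟩ := hc1
    apply hz.2.2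
    refine ⟨hz.1, hz.2.1, c, hc3, j, hc2, ?_⟩
    have h5 : c * G c i - b j = -(b j - c * G c i) := by ring
    rw [h5]
    exact (dvd_neg).2 hzd

/-- **Answer to Q1 (no).**  For every `w ≠ 0` in `βℤ`, if `≡_w` is symmetric then it is transitive;
moreover both properties are equivalent to `{n : nℤ ∈ w} ∈ w`. -/
theorem result : ∀ w : Ultrafilter ℤ, w ≠ pure 0 →
    ((∀ u v : Ultrafilter ℤ, Cong w u v → Cong w v u) →
      (∀ u v z : Ultrafilter ℤ, Cong w u v → Cong w v z → Cong w u z)) ∧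
    ((∀ u v : Ultrafilter ℤ, Cong w u v → Cong w v u) ↔ {n : ℤ | {m : ℤ | n ∣ m} ∈ w} ∈ w) := by
  intro w hw
  have hA : (∀ u v : Ultrafilter ℤ, Cong w u v → Cong w v u) → D w ∈ w := by
    intro hsym
    by_contra hD
    obtain ⟨u, v, h1, h2⟩ := not_symmetric_of_not_mem hw hD
    exact h2 (hsym u v h1)
  refine ⟨fun hsym u v z => transitive_of_mem (hA hsym), hA, ?_⟩
  intro hD u v huv A hA' hAw
  obtain ⟨c, hcA, hcD⟩ := Ultrafilter.nonempty_of_mem (Filter.inter_mem hAw hD)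
  have hcD' : {m : ℤ | c ∣ m} ∈ w := hcD
  have hup : UpClosed {m : ℤ | c ∣ m} := fun a b ha hab => Dvd.dvd.trans ha hab
  have h1 := huv _ hup hcD'
  rw [mem_usub] at h1 ⊢
  obtain ⟨x, hx⟩ := Ultrafilter.nonempty_of_mem h1
  have hx' : {y : ℤ | c ∣ x - y} ∈ v := hx
  refine Filter.mem_of_superset hx' ?_
  intro y hy
  refine Filter.mem_of_superset h1 ?_
  intro x' hx2
  obtain ⟨y', hy1, hy2⟩ := Ultrafilter.nonempty_of_mem (Filter.inter_mem hx' hx2)
  apply hA' c _ hcA
  have e1 : c ∣ x - y := hy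
  have e2 : c ∣ x - y' := hy1
  have e3 : c ∣ x' - y' := hy2
  have h6 : y - x' = (x - y') - (x - y) - (x' - y') := by ring
  rw [h6]
  exact dvd_sub (dvd_sub e2 e1) e3

end Pool.Agent.Results.MP_6ac782_lc.SymmetricTransitive
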